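import Pool.Agent.Helper53.Comp.GoalsP
import Pool.Agent.Helper20.Mono.Crd
import Pool.Agent.Helper33.Mono.ZFormula

/-! Packet P9: the formula of a chart at generic weights. -/

namespace Mono

namespace Comp

open Finset Filter Topology

namespace P9

variable {n k : ℕ}

theorem toR_single (i : Fin k) : toR (Pi.single i 1 : Fin k → ℤ) = Pi.single i (1 : ℝ) := by
  funext j
  by_cases h : j = i
  · subst h; simp
  · simp [h]

theorem single_inj {j j' : Fin n} (h : (Pi.single j 1 : Fin n → ℤ) = Pi.single j' 1) : j = j' := by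
  by_contra hne
  have := congrFun h j
  simp [hne] at this

theorem lift_inj {blk : Fin n → Fin k} {N : Fin n → ℕ} (hb : Function.Surjective blk)
    (hN : ∀ j, 0 < N j) : Function.Injective (lift blk N) := by
  intro u v h
  funext i
  obtain ⟨j, rfl⟩ := hb i
  have h1 := congrFun h j
  simp only [lift] at h1
  have h2 : (N j : ℤ) ≠ 0 := by exact_mod_cast (hN j).ne'
  exact mul_left_cancel₀ h2 h1

/-- If `lift u = e_j` then `u = e_{blk j}` and `j` is alone in its block. -/
theorem lift_eq_single {blk : Fin n → Fin k} {N : Fin n → ℕ} (hb : Function.Surjective blk)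
    (hN : ∀ j, 0 < N j) {u : Fin k → ℤ} {j : Fin n} (h : lift blk N u = Pi.single j 1) :
    u = Pi.single (blk j) 1 ∧ ∀ j', blk j' = blk j → j' = j := by
  have hj := congrFun h j
  simp only [lift, Pi.single_eq_same] at hj
  have hu : u (blk j) = 1 := by
    have h1 : (N j : ℤ) ∣ 1 := ⟨_, hj.symm⟩
    have h2 : (N j : ℤ) = 1 := by
      have h3 := Int.natCast_dvd_natCast.1 (by simpa using h1 : ((N j : ℕ) : ℤ) ∣ ((1 : ℕ) : ℤ))
      have h4 : N j = 1 := Nat.dvd_one.1 h3
      exact_mod_cast h4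
    rw [h2, one_mul] at hj
    exact hj
  have halone : ∀ j', blk j' = blk j → j' = j := by
    intro j' hj'
    by_contra hne
    have h1 := congrFun h j'
    simp only [lift, Pi.single_apply, if_neg hne, hj', hu, mul_one] at h1
    have h2 : N j' = 0 := by exact_mod_cast h1
    exact (hN j').ne' h2
  refine ⟨?_, halone⟩
  funext i
  by_cases hi : i = blk j
  · subst hi
    simp [hu]
  · obtain ⟨j', rfl⟩ := hb i
    have hne : j' ≠ j := by
      rintro rfl
      exact hi rfl
    have h1 := congrFun h j'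
    simp only [lift, Pi.single_apply, if_neg hne] at h1
    have h2 : (N j' : ℤ) ≠ 0 := by exact_mod_cast (hN j').ne'
    have h3 : u (blk j') = 0 := by
      rcases mul_eq_zero.1 h1 with h4 | h4
      · exact absurd h4 h2
      · exact h4
    rw [h3, Pi.single_apply, if_neg hi]

/-- The set of blocks `i` with `e_i ∈ F ∩ Z`. -/
noncomputable def KF (Z F : Finset (Fin k → ℤ)) : Finset (Fin k) :=
  univ.filter (fun i => (Pi.single i 1 : Fin k → ℤ) ∈ F ∩ Z)

theorem mem_KF {Z F : Finset (Fin k → ℤ)} {i : Fin k} :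
    i ∈ KF Z F ↔ (Pi.single i 1 : Fin k → ℤ) ∈ F ∩ Z := by
  simp [KF]

theorem mem_coneJ {blk : Fin n → Fin k} {Z F : Finset (Fin k → ℤ)} {c : Fin k → Fin n}
    {j : Fin n} : j ∈ coneJ blk Z F c ↔ blk j ∈ KF Z F ∨ j ≠ c (blk j) := by
  simp [coneJ, mem_KF]

theorem mem_sel {blk : Fin n → Fin k} {c : Fin k → Fin n} : c ∈ sel blk ↔ ∀ i, blk (c i) = i := by
  simp [sel]

section

variable {A Z : Finset (Fin k → ℤ)} {Φ : Fan k}

theorem inter_eq_image (ht : Tri A Z Φ) (F : Finset (Fin k → ℤ)) :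
    F ∩ Z = (KF Z F).image (fun i => Pi.single i 1) := by
  ext u
  rw [Finset.mem_image]
  constructor
  · intro hu
    obtain ⟨i, rfl⟩ := ht.2.2.2.2.2.1.2.1 u (Finset.mem_inter.1 hu).2
    exact ⟨i, mem_KF.2 hu, rfl⟩
  · rintro ⟨i, hi, rfl⟩
    exact mem_KF.1 hi

variable {blk : Fin n → Fin k} {N : Fin n → ℕ} (hb : Function.Surjective blk)
  (hN : ∀ j, 0 < N j)

include hb hN in
theorem single_mem_liftCone {F : Finset (Fin k → ℤ)} {c : Fin k → Fin n} {j : Fin n}
    (h : (Pi.single j 1 : Fin n → ℤ) ∈ liftCone blk N Z F c) :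
    j ∈ coneJ blk Z F c ∨
      ((Pi.single (blk j) 1 : Fin k → ℤ) ∈ F \ Z ∧ ∀ j', blk j' = blk j → j' = j) := by
  rw [liftCone, Finset.mem_union, Finset.mem_image, Finset.mem_image] at h
  rcases h with ⟨u, hu, huj⟩ | ⟨j', hj', he⟩
  · right
    obtain ⟨h1, h2⟩ := lift_eq_single hb hN huj
    exact ⟨h1 ▸ hu, h2⟩
  · left
    rw [← single_inj he]
    exact hj'

theorem coneJ_mem_liftCone {F : Finset (Fin k → ℤ)} {c : Fin k → Fin n} {j : Fin n}
    (h : j ∈ coneJ blk Z F c) : (Pi.single j 1 : Fin n → ℤ) ∈ liftCone blk N Z F c := by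
  rw [liftCone, Finset.mem_union, Finset.mem_image, Finset.mem_image]
  exact Or.inr ⟨j, h, rfl⟩

include hb hN in
theorem KF_sub {F F' : Finset (Fin k → ℤ)} {c c' : Fin k → Fin n}
    (hc' : c' ∈ sel blk)
    (he : liftCone blk N Z F c = liftCone blk N Z F' c') : KF Z F ⊆ KF Z F' := by
  intro i hi
  have h1 : c' i ∈ coneJ blk Z F c := by
    rw [mem_coneJ]
    left
    rw [mem_sel.1 hc']
    exact hi
  have h2 := coneJ_mem_liftCone (N := N) h1
  rw [he] at h2
  rcases single_mem_liftCone hb hN h2 with h3 | ⟨h3, _⟩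
  · rw [mem_coneJ, mem_sel.1 hc'] at h3
    rcases h3 with h3 | h3
    · exact h3
    · exact absurd rfl h3
  · rw [mem_sel.1 hc'] at h3
    exact absurd (Finset.mem_inter.1 (mem_KF.1 hi)).2 (Finset.mem_sdiff.1 h3).2

include hb hN in
theorem cone_inj_F (ht : Tri A Z Φ) {F F' : Finset (Fin k → ℤ)}
    {c c' : Fin k → Fin n} (hc : c ∈ sel blk) (hc' : c' ∈ sel blk) (hs : F \ Z = F' \ Z)
    (he : liftCone blk N Z F c = liftCone blk N Z F' c') : F = F' := by
  have h1 : KF Z F = KF Z F' :=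
    Finset.Subset.antisymm (KF_sub hb hN hc' he) (KF_sub hb hN hc he.symm)
  rw [← Finset.sdiff_union_inter F Z, ← Finset.sdiff_union_inter F' Z, hs,
    inter_eq_image ht, inter_eq_image ht, h1]

include hb hN in
theorem cone_inj_c {F : Finset (Fin k → ℤ)}
    {c c' : Fin k → Fin n} (hc : c ∈ sel blk) (hc' : c' ∈ sel blk)
    (he : liftCone blk N Z F c = liftCone blk N Z F c') {i : Fin k} (hi : i ∉ KF Z F) :
    c i = c' i := by
  by_contra hne
  have h1 : c i ∈ coneJ blk Z F c' := by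
    rw [mem_coneJ, mem_sel.1 hc]
    exact Or.inr hne
  have h2 := coneJ_mem_liftCone (N := N) h1
  rw [← he] at h2
  rcases single_mem_liftCone hb hN h2 with h3 | ⟨_, h3⟩
  · rw [mem_coneJ, mem_sel.1 hc] at h3
    rcases h3 with h3 | h3
    · exact hi h3
    · exact h3 rfl
  · have := h3 (c' i) (by rw [mem_sel.1 hc, mem_sel.1 hc'])
    exact hne this.symm

theorem cone_congr {F : Finset (Fin k → ℤ)} {c c' : Fin k → Fin n}
    (h : ∀ i, i ∉ KF Z F → c i = c' i) : liftCone blk N Z F c = liftCone blk N Z F c' := by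
  have : coneJ blk Z F c = coneJ blk Z F c' := by
    ext j
    rw [mem_coneJ, mem_coneJ]
    by_cases hj : blk j ∈ KF Z F
    · simp [hj]
    · rw [h _ hj]
  rw [liftCone, liftCone, this]

end

/-! ### Coordinates -/

section crd

variable {A Z : Finset (Fin k → ℤ)} {Φ : Fan k}

theorem crd_sub {F : Finset (Fin k → ℤ)} (h : Indep F) (hc : F.card = k) (x y : Fin k → ℝ)
    (u : Fin k → ℤ) : crd F (x - y) u = crd F x u - crd F y u := by
  rw [sub_eq_add_neg, crd_add h hc, crd_neg h hc, sub_eq_add_neg]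

theorem crd_congr {F : Finset (Fin k → ℤ)} (hF : F ∈ Φ.mx)
    {x y : Fin k → ℝ} (hxy : ∀ i, i ∉ KF Z F → x i = y i) :
    (∀ u ∈ F \ Z, crd F x u = crd F y u) ∧
      ∀ i ∈ KF Z F, crd F x (Pi.single i 1) = crd F y (Pi.single i 1) + (x i - y i) := by
  classical
  have hi := Φ.mx_indep F hF
  have hc := Φ.mx_card F hF
  -- the coordinates of `x - y`
  have h1 : IsCrd F (x - y) (fun u => ∑ i ∈ KF Z F, if u = Pi.single i 1 then x i - y i else 0) := by
    refine ⟨fun u hu => ?_, ?_⟩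
    · refine Finset.sum_eq_zero fun i hi' => ?_
      rw [if_neg]
      rintro rfl
      exact hu (Finset.mem_inter.1 (mem_KF.1 hi')).1
    · have h2 : ∀ u ∈ F, (∑ i ∈ KF Z F, if u = Pi.single i 1 then x i - y i else 0) • toR u =
          ∑ i ∈ KF Z F, if u = Pi.single i 1 then (x i - y i) • toR u else 0 := by
        intro u _
        rw [Finset.sum_smul]
        refine Finset.sum_congr rfl fun i _ => ?_
        split_ifs <;> simp
      rw [Finset.sum_congr rfl h2, Finset.sum_comm]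
      have h3 : ∀ i ∈ KF Z F, (∑ u ∈ F, if u = Pi.single i 1 then (x i - y i) • toR u else 0) =
          (x i - y i) • (Pi.single i (1 : ℝ) : Fin k → ℝ) := by
        intro i hi'
        rw [Finset.sum_ite_eq' F (Pi.single i 1) (fun u => (x i - y i) • toR u),
          if_pos (Finset.mem_inter.1 (mem_KF.1 hi')).1, toR_single]
      rw [Finset.sum_congr rfl h3]
      funext l
      rw [Finset.sum_apply]
      simp only [Pi.smul_apply, Pi.single_apply, smul_eq_mul, mul_ite, mul_one, mul_zero,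
        Pi.sub_apply]
      rw [Finset.sum_ite_eq (KF Z F) l (fun i => x i - y i)]
      split_ifs with hl
      · rfl
      · rw [hxy l hl, sub_self]
  have h2 := crd_unique hi h1
  constructor
  · intro u hu
    have h3 : crd F (x - y) u = 0 := by
      rw [h2]
      refine Finset.sum_eq_zero fun i hi' => ?_
      rw [if_neg]
      rintro rfl
      exact (Finset.mem_sdiff.1 hu).2 (Finset.mem_inter.1 (mem_KF.1 hi')).2
    rw [crd_sub hi hc] at h3
    linarith
  · intro i hi'
    have h3 : crd F (x - y) (Pi.single i 1) = x i - y i := by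
      rw [h2]
      have h4 : ∀ l ∈ KF Z F, (if (Pi.single i 1 : Fin k → ℤ) = Pi.single l 1 then x l - y l else 0) =
          if i = l then x l - y l else 0 := by
        intro l _
        by_cases hl : i = l
        · subst hl; simp
        · rw [if_neg hl, if_neg (fun h => hl (single_inj h))]
      simp only []
      rw [Finset.sum_congr rfl h4, Finset.sum_ite_eq, if_pos hi']
    rw [crd_sub hi hc] at h3
    linarith

theorem psi_nonneg (ht : Tri A Z Φ) {F : Finset (Fin k → ℤ)} (hF : F ∈ Φ.mx)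
    {x : Fin k → ℝ} (hx : ∀ i, 0 ≤ x i) : 0 ≤ psi Z F x := by
  classical
  have hi := Φ.mx_indep F hF
  have hc := Φ.mx_card F hF
  have h2 := (ht.2.2.2.2.2.1.2.2 F hF).2
  have h3 : ∀ s : Finset (Fin k), psi Z F (∑ i ∈ s, x i • (Pi.single i (1 : ℝ) : Fin k → ℝ)) =
      ∑ i ∈ s, x i * psi Z F (Pi.single i 1) := by
    intro s
    induction s using Finset.induction_on with
    | empty =>
      simp only [Finset.sum_empty]
      have := psi_smul Z hi hc 0 0
      simpa using this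
    | insert a s ha ih =>
      rw [Finset.sum_insert ha, Finset.sum_insert ha, psi_add Z hi hc, psi_smul Z hi hc, ih]
  have h4 : x = ∑ i, x i • (Pi.single i (1 : ℝ) : Fin k → ℝ) := by
    funext j
    simp [Finset.sum_apply, Pi.single_apply]
  rw [h4, h3]
  exact Finset.sum_nonneg fun i _ => mul_nonneg (hx i) (h2 i)

end crd

/-! ### The function `R` -/

/-- The part of `WtermR` which does not depend on the coordinates in `K`. -/
noncomputable def Rf (v : Finset (Fin k → ℤ) → ℝ) (Z F : Finset (Fin k → ℤ)) (s : ℝ)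
    (x : Fin k → ℝ) : ℝ :=
  (1 / ((idx (F : Set (Fin k → ℤ)) : ℝ) * (s + psi Z F x))) *
    ∑ τ ∈ (F \ Z).powerset, (-1) ^ τ.card * v τ / ∏ u ∈ (F \ Z) \ τ, crd F x u

theorem Rf_congr {Z : Finset (Fin k → ℤ)} {Φ : Fan k}
    {F : Finset (Fin k → ℤ)} (hF : F ∈ Φ.mx) (v : Finset (Fin k → ℤ) → ℝ) (s : ℝ)
    {x y : Fin k → ℝ} (hxy : ∀ i, i ∉ KF Z F → x i = y i) : Rf v Z F s x = Rf v Z F s y := by
  have h1 := (crd_congr hF hxy).1
  have h2 : psi Z F x = psi Z F y := Finset.sum_congr rfl h1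
  rw [Rf, Rf, h2]
  congr 1
  refine Finset.sum_congr rfl fun τ _ => ?_
  congr 1
  exact Finset.prod_congr rfl fun u hu => h1 u (Finset.mem_sdiff.1 hu).1

theorem WtermR_eq {A Z : Finset (Fin k → ℤ)} {Φ : Fan k} (ht : Tri A Z Φ)
    (F : Finset (Fin k → ℤ)) (v : Finset (Fin k → ℤ) → ℝ) (s : ℝ)
    (x : Fin k → ℝ) : WtermR v Z F s x =
      Rf v Z F s x * ∏ i ∈ KF Z F, (crd F x (Pi.single i 1))⁻¹ := by
  classical
  rw [WtermR, Rf, mul_assoc, Finset.sum_mul]
  congr 1
  refine Finset.sum_congr rfl fun τ hτ => ?_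
  rw [Finset.mem_powerset] at hτ
  have h1 : F \ τ = ((F \ Z) \ τ) ∪ (F ∩ Z) := by
    ext u
    have h2 : u ∈ τ → u ∈ F ∧ u ∉ Z := fun h => Finset.mem_sdiff.1 (hτ h)
    simp only [Finset.mem_sdiff, Finset.mem_union, Finset.mem_inter]
    tauto
  have h2 : Disjoint ((F \ Z) \ τ) (F ∩ Z) := by
    rw [Finset.disjoint_left]
    intro u hu hu'
    exact (Finset.mem_sdiff.1 (Finset.mem_sdiff.1 hu).1).2 (Finset.mem_inter.1 hu').2
  rw [h1, Finset.prod_union h2, inter_eq_image ht, Finset.prod_image (fun a _ b _ h => single_inj h),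
    Finset.prod_inv_distrib, div_mul_eq_div_div, div_eq_mul_inv (_ / _)]

/-! ### The term of a lifted cone -/

section lifted

variable {A Z : Finset (Fin k → ℤ)} {Φ : Fan k} {blk : Fin n → Fin k} {N : Fin n → ℕ}

theorem Wterm_lift (h3 : LiftCrd) (h4 : LiftIdx) (h5 : LiftVol) (ht : Tri A Z Φ)
    (hb : Function.Surjective blk) (hN : ∀ j, 0 < N j) {F : Finset (Fin k → ℤ)} (hF : F ∈ Φ.mx)
    {c : Fin k → Fin n} (hc : c ∈ sel blk) (ρ : Fin n → ℝ) (s : ℝ) :
    Wterm (liftZ blk Z) (liftCone blk N Z F c) s (fun j => (N j : ℝ) * ρ j) =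
      Rf (vG (blkGcd blk N)) Z F s (fun i => ρ (c i)) *
        (∏ i ∈ (KF Z F)ᶜ, (N (c i) : ℝ)⁻¹) *
      (∏ j ∈ univ.filter (fun j => blk j ∉ KF Z F ∧ j ≠ c (blk j)),
        ((N j : ℝ) * (ρ j - ρ (c (blk j))))⁻¹) *
      ∏ j ∈ univ.filter (fun j => blk j ∈ KF Z F),
        ((N j : ℝ) * (ρ j - ((fun i => ρ (c i)) (blk j) -
          crd F (fun i => ρ (c i)) (Pi.single (blk j) 1))))⁻¹ := by
  classical
  obtain ⟨e1, e2, e3, e4, e5, e6⟩ := h3 n k A Z Φ ht blk N hb hN F hF c hc ρ
  have e7 := h4 n k A Z Φ ht blk N hb hN F hF c hc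
  have hinj : Function.Injective (lift blk N) := lift_inj hb hN
  set w : Fin n → ℝ := fun j => (N j : ℝ) * ρ j with hw
  set x : Fin k → ℝ := fun i => ρ (c i) with hx
  set L := liftCone blk N Z F c with hL
  -- the index
  have hcompl : univ.filter (fun i : Fin k => (Pi.single i 1 : Fin k → ℤ) ∉ F ∩ Z) =
      (KF Z F)ᶜ := by
    ext i
    simp [mem_KF]
  rw [hcompl] at e7
  -- the product over the coordinates
  have hdisj : Disjoint ((F \ Z).image (lift blk N))
      ((coneJ blk Z F c).image (fun j => (Pi.single j 1 : Fin n → ℤ))) := by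
    rw [Finset.disjoint_left]
    intro v hv hv'
    obtain ⟨u, hu, rfl⟩ := Finset.mem_image.1 hv
    obtain ⟨j, hj, hj'⟩ := Finset.mem_image.1 hv'
    obtain ⟨g1, g2⟩ := lift_eq_single hb hN hj'.symm
    rcases mem_coneJ.1 hj with h | h
    · rw [g1] at hu
      exact (Finset.mem_sdiff.1 hu).2 (Finset.mem_inter.1 (mem_KF.1 h)).2
    · exact h (g2 _ (mem_sel.1 hc _)).symm
  set P : ℝ := ∏ j ∈ coneJ blk Z F c, crd L w (Pi.single j 1) with hP
  have hprod : ∀ τ ∈ (F \ Z).powerset, ∏ u ∈ L \ τ.image (lift blk N), crd L w u =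
      (∏ u ∈ (F \ Z) \ τ, crd F x u) * P := by
    intro τ hτ
    rw [Finset.mem_powerset] at hτ
    have g1 : L \ τ.image (lift blk N) = ((F \ Z) \ τ).image (lift blk N) ∪
        (coneJ blk Z F c).image (fun j => (Pi.single j 1 : Fin n → ℤ)) := by
      rw [hL, liftCone, Finset.union_sdiff_distrib, Finset.image_sdiff (F \ Z) τ hinj]
      congr 1
      rw [Finset.sdiff_eq_self_iff_disjoint]
      exact (Finset.disjoint_of_subset_left (Finset.image_subset_image hτ) hdisj).symm
    have g2 : Disjoint (((F \ Z) \ τ).image (lift blk N))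
        ((coneJ blk Z F c).image (fun j => (Pi.single j 1 : Fin n → ℤ))) :=
      Finset.disjoint_of_subset_left (Finset.image_subset_image Finset.sdiff_subset) hdisj
    rw [g1, Finset.prod_union g2, Finset.prod_image (fun a _ b _ h => hinj h),
      Finset.prod_image (fun a _ b _ h => single_inj h)]
    congr 1
    refine Finset.prod_congr rfl fun u hu => ?_
    exact e4 u (Finset.mem_sdiff.1 hu).1
  have hPP : P⁻¹ = (∏ j ∈ univ.filter (fun j => blk j ∉ KF Z F ∧ j ≠ c (blk j)),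
        ((N j : ℝ) * (ρ j - ρ (c (blk j))))⁻¹) *
      ∏ j ∈ univ.filter (fun j => blk j ∈ KF Z F),
        ((N j : ℝ) * (ρ j - (x (blk j) - crd F x (Pi.single (blk j) 1))))⁻¹ := by
    have g1 : coneJ blk Z F c = univ.filter (fun j => blk j ∉ KF Z F ∧ j ≠ c (blk j)) ∪
        univ.filter (fun j => blk j ∈ KF Z F) := by
      ext j
      rw [mem_coneJ]
      simp only [Finset.mem_union, Finset.mem_filter, Finset.mem_univ, true_and]
      tauto
    have g2 : Disjoint (univ.filter (fun j => blk j ∉ KF Z F ∧ j ≠ c (blk j)))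
        (univ.filter (fun j => blk j ∈ KF Z F)) := by
      rw [Finset.disjoint_left]
      intro j hj hj'
      exact (Finset.mem_filter.1 hj).2.1 (Finset.mem_filter.1 hj').2
    rw [hP, ← Finset.prod_inv_distrib]
    have g3 : ∀ j ∈ coneJ blk Z F c, (crd L w (Pi.single j 1))⁻¹ =
        ((N j : ℝ) * (ρ j - ρ (c (blk j)) +
          (if Pi.single (blk j) 1 ∈ F ∩ Z then crd F x (Pi.single (blk j) 1) else 0)))⁻¹ := by
      intro j hj
      rw [e5 j hj]
    rw [Finset.prod_congr rfl g3, g1, Finset.prod_union g2]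
    congr 1
    · refine Finset.prod_congr rfl fun j hj => ?_
      have := (Finset.mem_filter.1 hj).2.1
      rw [mem_KF] at this
      rw [if_neg this, add_zero]
    · refine Finset.prod_congr rfl fun j hj => ?_
      have := (Finset.mem_filter.1 hj).2
      rw [mem_KF] at this
      rw [if_pos this, hx]
      congr 2
      ring
  -- the sum
  rw [Wterm, e3, e6, e7, Finset.powerset_image, Finset.sum_image]
  · have hsum : ∑ τ ∈ (F \ Z).powerset, (-1) ^ (τ.image (lift blk N)).card *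
        (vol (τ.image (lift blk N)) : ℝ) ^ 2 / ∏ u ∈ L \ τ.image (lift blk N), crd L w u =
        (∑ τ ∈ (F \ Z).powerset, (-1) ^ τ.card * vG (blkGcd blk N) τ /
          ∏ u ∈ (F \ Z) \ τ, crd F x u) * P⁻¹ := by
      rw [Finset.sum_mul]
      refine Finset.sum_congr rfl fun τ hτ => ?_
      rw [hprod τ hτ, Finset.card_image_of_injective _ hinj, h5 n k blk N hb hN τ, vG,
        div_mul_eq_div_div, div_eq_mul_inv (_ / _) P]
    rw [hsum, hPP, Rf]
    push_cast
    rw [Finset.prod_inv_distrib (s := (KF Z F)ᶜ)]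
    generalize (∑ τ ∈ (F \ Z).powerset, (-1) ^ τ.card * vG (blkGcd blk N) τ /
          ∏ u ∈ (F \ Z) \ τ, crd F x u) = S1
    generalize (∏ j ∈ univ.filter (fun j => blk j ∉ KF Z F ∧ j ≠ c (blk j)),
        ((N j : ℝ) * (ρ j - ρ (c (blk j))))⁻¹) = S2
    generalize (∏ j ∈ univ.filter (fun j => blk j ∈ KF Z F),
        ((N j : ℝ) * (ρ j - (x (blk j) - crd F x (Pi.single (blk j) 1))))⁻¹) = S3
    rw [one_div, one_div, mul_inv, mul_inv, mul_inv]
    ring
  · intro a _ b _ h
    exact Finset.image_injective hinj h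

theorem nz {F : Finset (Fin k → ℤ)} (hF : F ∈ Φ.mx) {ρ : Fin n → ℝ}
    (hρ : GenR Φ blk ρ) {c : Fin k → Fin n} (hc : c ∈ sel blk) {j : Fin n}
    (hj : blk j ∈ KF Z F) :
    ρ j - ρ (c (blk j)) + crd F (fun i => ρ (c i)) (Pi.single (blk j) 1) ≠ 0 := by
  classical
  have hc' : Function.update c (blk j) j ∈ sel blk := by
    rw [mem_sel]
    intro i
    by_cases hi : i = blk j
    · subst hi; simp
    · rw [Function.update_of_ne hi]
      exact mem_sel.1 hc i
  have h1 := (hρ.1 _ hc').1 F hF (Pi.single (blk j) 1) (Finset.mem_inter.1 (mem_KF.1 hj)).1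
  have h2 := (crd_congr (Z := Z) hF (x := fun i => ρ (Function.update c (blk j) j i))
    (y := fun i => ρ (c i)) (fun i hi => by
      have : i ≠ blk j := by
        rintro rfl
        exact hi hj
      simp only [Function.update_of_ne this])).2 (blk j) hj
  simp only [Function.update_self] at h2
  rw [h2] at h1
  intro h
  apply h1
  linarith

theorem sum_F (h3 : LiftCrd) (h4 : LiftIdx) (h5 : LiftVol) (h6 : PartFrac) (ht : Tri A Z Φ)
    (hb : Function.Surjective blk) (hN : ∀ j, 0 < N j) {F : Finset (Fin k → ℤ)} (hF : F ∈ Φ.mx)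
    {ρ : Fin n → ℝ} (hρ : GenR Φ blk ρ) (s : ℝ) :
    ∑ F' ∈ (sel blk).image (liftCone blk N Z F),
      Wterm (liftZ blk Z) F' s (fun j => (N j : ℝ) * ρ j) =
    (∏ j, (N j : ℝ)⁻¹) * ∑ c ∈ sel blk,
      (∏ j ∈ univ.filter (fun j => j ≠ c (blk j)), 1 / (ρ j - ρ (c (blk j)))) *
        WtermR (vG (blkGcd blk N)) Z F s (fun i => ρ (c i)) := by
  classical
  -- a choice
  obtain ⟨c₀, hc₀⟩ : ∃ c₀ : Fin k → Fin n, c₀ ∈ sel blk := by
    choose c₀ h using hb
    exact ⟨c₀, mem_sel.2 h⟩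
  have himg : (sel blk).image (liftCone blk N Z F) =
      ((sel blk).filter (fun c => ∀ i ∈ KF Z F, c i = c₀ i)).image (liftCone blk N Z F) := by
    ext F'
    rw [Finset.mem_image, Finset.mem_image]
    constructor
    · rintro ⟨c, hc, rfl⟩
      refine ⟨fun i => if i ∈ KF Z F then c₀ i else c i, ?_, ?_⟩
      · rw [Finset.mem_filter, mem_sel]
        refine ⟨fun i => ?_, fun i hi => if_pos hi⟩
        split_ifs
        · exact mem_sel.1 hc₀ i
        · exact mem_sel.1 hc i
      · exact cone_congr fun i hi => if_neg hi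
    · rintro ⟨c, hc, rfl⟩
      exact ⟨c, (Finset.mem_filter.1 hc).1, rfl⟩
  rw [himg, Finset.sum_image]
  · have hp := h6 n k blk N ρ (KF Z F) (Rf (vG (blkGcd blk N)) Z F s)
      (fun x i => x i - crd F x (Pi.single i 1)) hb hN hρ.2
      (fun x y hxy => Rf_congr hF _ s hxy)
      (fun x y hxy i hi => by
        have := (crd_congr (Z := Z) hF hxy).2 i hi
        linarith)
      (fun c hc j hj => by
        have := nz hF hρ hc hj
        intro h
        apply this
        simp only [] at h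
        linarith) c₀ hc₀
    rw [Finset.sum_congr rfl (fun c hc =>
      Wterm_lift h3 h4 h5 ht hb hN hF (Finset.mem_filter.1 hc).1 ρ s)]
    rw [hp]
    congr 1
    refine Finset.sum_congr rfl fun c _ => ?_
    rw [WtermR_eq ht]
    congr 2
    refine Finset.prod_congr rfl fun i _ => ?_
    congr 1
    simp only []
    ring
  · intro c hc c' hc' he
    have hc := Finset.mem_filter.1 (Finset.mem_coe.1 hc)
    have hc' := Finset.mem_filter.1 (Finset.mem_coe.1 hc')
    funext i
    by_cases hi : i ∈ KF Z F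
    · rw [hc.2 i hi, hc'.2 i hi]
    · exact cone_inj_c hb hN hc.1 hc'.1 he hi

end lifted

end P9

/-- P9. -/
theorem chartFormula (h1 : FaceSumR) (h2 : LiftFan) (h3 : LiftCrd) (h4 : LiftIdx) (h5 : LiftVol)
    (h6 : PartFrac) (h7 : ZWIdentity) : ChartFormula := by
  classical
  intro n k A Z Φ hk ht blk N hb hN T hT s hs ρ hρ0 hρ
  obtain ⟨Ψ, htΨ, hmx⟩ := h2 n k A Z Φ ht blk N hb hN
  have hn : 0 < n := by
    obtain ⟨j, _⟩ := hb ⟨0, hk⟩
    exact lt_of_le_of_lt (Nat.zero_le _) j.2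
  set w : Fin n → ℝ := fun j => (N j : ℝ) * ρ j with hw
  have hw0 : ∀ j, 0 < w j := fun j => mul_pos (Nat.cast_pos.2 (hN j)) (hρ0 j)
  have hdest : ∀ F' ∈ Ψ.mx, ∃ F ∈ Φ.mx, ∃ c ∈ sel blk, liftCone blk N Z F c = F' := by
    intro F' hF'
    rw [hmx, Finset.mem_biUnion] at hF'
    obtain ⟨F, hF, hF'⟩ := hF'
    rw [Finset.mem_image] at hF'
    obtain ⟨c, hc, h⟩ := hF'
    exact ⟨F, hF, c, hc, h⟩
  -- genericity
  have hgen : Ψ.Generic w := by
    refine ⟨fun F' hF' u hu => ?_, fun i => (hw0 i).ne'⟩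
    obtain ⟨F, hF, c, hc, rfl⟩ := hdest F' hF'
    obtain ⟨e1, e2, e3, e4, e5, e6⟩ := h3 n k A Z Φ ht blk N hb hN F hF c hc ρ
    rw [liftCone, Finset.mem_union, Finset.mem_image, Finset.mem_image] at hu
    rcases hu with ⟨v, hv, rfl⟩ | ⟨j, hj, rfl⟩
    · rw [hw, e4 v hv]
      exact (hρ.1 c hc).1 F hF v (Finset.mem_sdiff.1 hv).1
    · rw [hw, e5 j hj]
      refine mul_ne_zero (Nat.cast_ne_zero.2 (hN j).ne') ?_
      split_ifs with h
      · exact P9.nz (Z := Z) hF hρ hc (P9.mem_KF.2 h)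
      · rcases P9.mem_coneJ.1 hj with h' | h'
        · exact absurd (P9.mem_KF.1 h') h
        · rw [add_zero]
          exact sub_ne_zero.2 (hρ.2 _ _ h' (P9.mem_sel.1 hc _).symm)
  have hpsi : ∀ F' ∈ Ψ.mx, s + psi (liftZ blk Z) F' w ≠ 0 := by
    intro F' hF'
    have := P9.psi_nonneg htΨ hF' (fun i => (hw0 i).le)
    linarith
  have hpos : ∀ δ ∈ T.mx, ∀ a ∈ δ, (0 : ℝ) ≤ NA (A.image (lift blk N)) a ∧ 0 < w ⬝ᵥ toR a := by
    intro δ hδ a ha
    have hface : T.IsFace δ := ⟨δ, hδ, Finset.Subset.refl δ⟩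
    have h0 : ∀ i, 0 ≤ a i := T.vert_nonneg a (hface.subset_vert T ha)
    refine ⟨by exact_mod_cast H33Z.NA_nonneg htΨ.1 htΨ.2.1 h0, ?_⟩
    have hne : a ≠ 0 := by
      intro h
      have := (hface.indep T).ne_zero ⟨a, ha⟩
      apply this
      simp only [h]
      exact toR_zero
    obtain ⟨i, hi⟩ : ∃ i, a i ≠ 0 := by
      by_contra hcon
      push Not at hcon
      exact hne (funext hcon)
    rw [dotProduct]
    refine Finset.sum_pos' (fun j _ => ?_) ⟨i, Finset.mem_univ i, ?_⟩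
    · rw [toR_apply]
      exact mul_nonneg (hw0 j).le (by exact_mod_cast h0 j)
    · rw [toR_apply]
      have : 0 < a i := lt_of_le_of_ne (h0 i) (Ne.symm hi)
      exact mul_pos (hw0 i) (by exact_mod_cast this)
  have hkey := h7 n (A.image (lift blk N)) (liftZ blk Z) Ψ T hn htΨ hT w hgen s (by linarith) hpsi
    (fun δ hδ a ha => by
      obtain ⟨g1, g2⟩ := hpos δ hδ a ha
      have := mul_nonneg g1 hs.le
      linarith)
    (fun δ hδ a ha => (hpos δ hδ a ha).2.ne')
  rw [h1 n w _ _ Ψ T htΨ s, hkey]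
  have hs1 : s + 1 ≠ 0 := by linarith
  rw [← mul_assoc, mul_one_div_cancel hs1, one_mul]
  congr 2
  -- the sum over the cones
  rw [Fan.W, hmx, Finset.sum_biUnion]
  · rw [Finset.sum_congr rfl (fun F hF => P9.sum_F h3 h4 h5 h6 ht hb hN hF hρ s),
      ← Finset.mul_sum, Finset.sum_comm, DDc]
    congr 1
    refine Finset.sum_congr rfl fun c _ => ?_
    rw [WR, Finset.mul_sum]
  · intro F hF F' hF' hne
    rw [Function.onFun, Finset.disjoint_left]
    intro L hL hL'
    rw [Finset.mem_image] at hL hL'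
    obtain ⟨c, hc, rfl⟩ := hL
    obtain ⟨c', hc', he⟩ := hL'
    apply hne
    have g1 := (h3 n k A Z Φ ht blk N hb hN F hF c hc ρ).2.2.1
    have g2 := (h3 n k A Z Φ ht blk N hb hN F' hF' c' hc' ρ).2.2.1
    rw [he, g1] at g2
    have g3 : F \ Z = F' \ Z := Finset.image_injective (P9.lift_inj hb hN) g2
    exact P9.cone_inj_F hb hN ht hc hc' g3 he.symm

end Comp

end Mono
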